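import Mathlib
import Pool.Agent.H958.RL.Stm2
import Pool.Agent.H863.RL.Utail

/-!
# Project RL, part MOM: moments of the sizes of the up-sets
-/

set_option autoImplicit false

namespace Pool.Agent.H806.RL.Mom

open Finset
open scoped Classical
open Pool.Agent.W830.RD (Om gle Pr)
open Pool.Agent.W571.RD.Pind (EX)
open Pool.Agent.H863.RL.Utail (EX_mono A A_pow U mem_U OmL_top bound)
open Pool.Agent.H958.RL (Ex)

noncomputable section

theorem main : Pool.Agent.H958.RL.S_MOM := by
  intro p n r x hp hp1 hr
  have h0 : Ex p n (fun E => ((univ.filter (fun u => gle E x u)).card : ℝ) ^ r) =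
      EX p (Om n) (fun E => ((univ.filter (fun u => gle E x u)).card : ℝ) ^ r) := by
    unfold Ex EX
    exact sum_congr rfl fun E _ => mul_comm _ _
  rw [h0]
  refine (EX_mono p hp hp1 (Om n) _ (fun E => A r (U E x n).card) fun E _ => ?_).trans ?_
  · have hU : (univ.filter (fun u => gle E x u)) = U E x n := by
      ext u
      rw [mem_U, mem_filter]
      exact ⟨fun h => ⟨u.2, h.2⟩, fun h => ⟨mem_univ _, h.2⟩⟩
    rw [hU]
    exact A_pow r _
  · have h := bound p hp hp1 r hr x n le_rfl
    rw [OmL_top] at h
    exact h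

end

end Pool.Agent.H806.RL.Mom
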